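import Pool.Agent.H12.Rotor1

/-! Rotor walk from the aligned configuration escapes at the rate of simple random walk. -/

open MeasureTheory ProbabilityTheory Filter Topology Finset Pool.Agent.H12.Rotor

namespace Pool.Agent.Results.MP_b041da_pr.Escape

variable {d : ℕ}

/-- the unit vector `± e_i` named by `(i, sign)` -/
def vec (s : Fin d × Bool) : Fin d → ℤ := if s.2 then Pi.single s.1 1 else -Pi.single s.1 1

/-- one step: move along the rotor, then advance that rotor -/
def step (m : (Fin d → ℤ) → Equiv.Perm (Fin d × Bool))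
    (z : (Fin d → ℤ) × ((Fin d → ℤ) → Fin d × Bool)) :
    (Fin d → ℤ) × ((Fin d → ℤ) → Fin d × Bool) :=
  (z.1 + vec (z.2 z.1), Function.update z.2 z.1 (m z.1 (z.2 z.1)))

/-- position at time `k` of the rotor walk from the origin with initial rotors `ρ` -/
def pos (m : (Fin d → ℤ) → Equiv.Perm (Fin d × Bool)) (ρ : (Fin d → ℤ) → Fin d × Bool) (k : ℕ) :
    Fin d → ℤ := ((step m)^[k] (0, ρ)).1

/-- the walk never returns to the origin -/
def Escapes (m : (Fin d → ℤ) → Equiv.Perm (Fin d × Bool)) (ρ : (Fin d → ℤ) → Fin d × Bool) :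
    Prop := ∀ k, 1 ≤ k → pos m ρ k ≠ 0

/-- the rotors left by a particle run until it returns or escapes: the rotor at `x` has advanced
once for each departure from `x` made before the first return -/
noncomputable def next (m : (Fin d → ℤ) → Equiv.Perm (Fin d × Bool))
    (ρ : (Fin d → ℤ) → Fin d × Bool) (x : Fin d → ℤ) : Fin d × Bool :=
  (m x ^ Set.ncard {k | pos m ρ k = x ∧ ∀ j, 1 ≤ j → j ≤ k → pos m ρ j ≠ 0}) (ρ x)

open Classical in
/-- number of escapes among the first `n` particles -/
noncomputable def I (m : (Fin d → ℤ) → Equiv.Perm (Fin d × Bool))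
    (ρ : (Fin d → ℤ) → Fin d × Bool) (n : ℕ) : ℕ :=
  ((range n).filter fun j => Escapes m ((next m)^[j] ρ)).card

/-- escape probability of simple random walk -/
noncomputable def alpha (d : ℕ) : ℝ :=
  (Measure.infinitePi fun _ : ℕ => uniformOn (Set.univ : Set (Fin d × Bool))).real
    {ω | ∀ k, 1 ≤ k → ∑ j ∈ range k, vec (ω j) ≠ 0}

lemma sum_vec (f : (Fin d → ℤ) → ℝ) (x : Fin d → ℤ) :
    ∑ s : Fin d × Bool, f (x + vec s) = ∑ i, (f (x + e i) + f (x - e i)) := by
  simp [Fintype.sum_prod_type, vec, e, sub_eq_add_neg]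

/-- prepend a step -/
def cons (z : (Fin d × Bool) × (ℕ → Fin d × Bool)) (n : ℕ) : Fin d × Bool :=
  Nat.casesOn n z.1 z.2

/-- law of the steps -/
noncomputable abbrev PP (d : ℕ) : Measure (ℕ → Fin d × Bool) :=
  Measure.infinitePi fun _ : ℕ => uniformOn (Set.univ : Set (Fin d × Bool))

lemma cons_meas : Measurable (cons (d := d)) := measurable_pi_lambda _ fun n => by
  cases n with
  | zero => exact measurable_fst
  | succ n => exact (measurable_pi_apply n).comp measurable_snd

lemma cons_map [NeZero d] :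
    ((uniformOn (Set.univ : Set (Fin d × Bool))).prod (PP d)).map cons = PP d := by
  classical
  refine Measure.eq_infinitePi _ fun s t ht => ?_
  rw [Measure.map_apply cons_meas (MeasurableSet.pi s.countable_toSet fun i _ => ht i)]
  have : cons ⁻¹' (Set.pi s t) = (if 0 ∈ s then t 0 else Set.univ) ×ˢ
      Set.pi (s.preimage Nat.succ Nat.succ_injective.injOn) fun i => t (i + 1) := by
    ext z
    simp only [Set.mem_preimage, Set.mem_pi, mem_coe, Set.mem_prod, coe_preimage]
    constructor
    · intro h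
      refine ⟨?_, fun i hi => h (i + 1) hi⟩
      split_ifs with h0
      · exact h 0 h0
      · trivial
    · rintro ⟨h1, h2⟩ i hi
      cases i with
      | zero => rw [if_pos hi] at h1; exact h1
      | succ i => exact h2 i hi
  rw [this, Measure.prod_prod, Measure.infinitePi_pi _ fun i _ => ht _,
    prod_preimage' Nat.succ s _ fun i => uniformOn (Set.univ : Set (Fin d × Bool)) (t i),
    ← prod_filter_mul_prod_filter_not s (· = 0)]
  congr 1
  · rw [filter_eq']
    split_ifs <;> simp
  · refine prod_congr (filter_congr fun i _ => ?_) fun _ _ => rfl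
    cases i <;> simp

lemma first [NeZero d] (A : Set (ℕ → Fin d × Bool)) (hA : MeasurableSet A) :
    (PP d).real A = (∑ s : Fin d × Bool, (PP d).real {ω | cons (s, ω) ∈ A}) / (2 * d) := by
  conv_lhs => rw [Measure.real, ← cons_map, Measure.map_apply cons_meas hA,
    Measure.prod_apply (cons_meas hA), lintegral_fintype]
  rw [ENNReal.toReal_sum fun _ _ => by finiteness, sum_div]
  refine sum_congr rfl fun s _ => ?_
  rw [ENNReal.toReal_mul, uniformOn_univ, Measure.count_singleton]
  simp [Measure.real, div_eq_mul_inv, mul_comm]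
  exact Or.inl rfl

lemma sum_cons (s : Fin d × Bool) (ω : ℕ → Fin d × Bool) (k : ℕ) :
    ∑ j ∈ range (k + 1), vec (cons (s, ω) j) = vec s + ∑ j ∈ range k, vec (ω j) := by
  rw [sum_range_succ', add_comm]; rfl

lemma ev_meas (x : Fin d → ℤ) (p : ℕ → Prop) :
    MeasurableSet {ω : ℕ → Fin d × Bool | ∀ k, p k → x + ∑ j ∈ range k, vec (ω j) ≠ 0} := by
  simp only [Set.ofPred_forall]
  refine MeasurableSet.iInter fun k => MeasurableSet.iInter fun _ => ?_
  have : Measurable fun ω : ℕ → Fin d × Bool => x + ∑ j ∈ range k, vec (ω j) :=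
    measurable_const.add (Finset.measurable_sum _ fun j _ =>
      (Measurable.of_discrete (f := vec)).comp (measurable_pi_apply j))
  exact this (measurableSet_singleton 0).compl

/-- survival probability -/
noncomputable def U (p : ℕ → Prop) (x : Fin d → ℤ) : ℝ :=
  (PP d).real {ω | ∀ k, p k → x + ∑ j ∈ range k, vec (ω j) ≠ 0}

lemma U_step [NeZero d] (p : ℕ → Prop) (x : Fin d → ℤ) (hx : p 0 → x ≠ 0) :
    U p x = avg (U fun k => p (k + 1)) x := by
  rw [U, first _ (ev_meas x p), avg, ← sum_vec]
  congr 1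
  refine sum_congr rfl fun s _ => ?_
  rw [U]
  congr 1
  ext ω
  simp only [Set.mem_ofPred_eq]
  constructor
  · intro h k hk
    have := h (k + 1) hk
    rwa [sum_cons, ← add_assoc] at this
  · intro h k hk
    cases k with
    | zero => simpa using hx hk
    | succ k => rw [sum_cons, ← add_assoc]; exact h k hk

lemma U_zero (p : ℕ → Prop) (hp : p 0) : U p (0 : Fin d → ℤ) = 0 := by
  have : {ω : ℕ → Fin d × Bool | ∀ k, p k → 0 + ∑ j ∈ range k, vec (ω j) ≠ 0} = ∅ :=
    Set.eq_empty_of_forall_notMem fun ω h => h 0 hp (by simp)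
  rw [U, this, measureReal_empty]

lemma avg_sub [NeZero d] (f : (Fin d → ℤ) → ℝ) (x : Fin d → ℤ) :
    avg (fun y => 1 - f y) x = 1 - avg f x := by
  have hd : (0 : ℝ) < d := by exact_mod_cast NeZero.pos d
  simp only [avg, sum_add_distrib, sum_sub_distrib, sum_const, card_univ, Fintype.card_fin,
    nsmul_eq_mul]
  field_simp
  ring

lemma alpha_eq [NeZero d] : alpha d = 1 - avg (h (d := d)) 0 := by
  have h1 : ∀ N (x : Fin d → ℤ), k N x ≤ 1 - U (fun _ => True) x := by
    intro N
    induction N with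
    | zero =>
      intro x
      simp only [k, dl]
      split_ifs with hx
      · rw [hx, U_zero _ trivial, sub_zero]
      · exact sub_nonneg.2 measureReal_le_one
    | succ N ih =>
      intro x
      simp only [k, Q]
      split_ifs with hx
      · rw [hx, U_zero _ trivial, sub_zero]
      · have := avg_mono ih x
        rw [avg_sub, ← U_step (fun _ => True) x fun _ => hx] at this
        linarith [ih x]
  have h2 : ∀ N (x : Fin d → ℤ), 1 - U (· < N) x ≤ h x := by
    intro N
    induction N with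
    | zero => intro x; simpa [U] using (h_good.bd x).1
    | succ N ih =>
      intro x
      by_cases hx : x = 0
      · rw [hx, U_zero _ (Nat.succ_pos N), h_zero, sub_zero]
      · rw [h_harm x hx, U_step _ x fun _ => hx, ← avg_sub]
        simpa using avg_mono ih x
  have h3 : ∀ x : Fin d → ℤ, U (fun _ => True) x = 1 - h x := by
    intro x
    have h4 : h x ≤ 1 - U (fun _ => True) x := le_of_tendsto' (k_lim x) fun N => h1 N x
    have h5 := tendsto_measure_iInter_atTop (μ := PP d)
      (s := fun N : ℕ => {ω | ∀ k, k < N → x + ∑ j ∈ range k, vec (ω j) ≠ 0})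
      (fun N => (ev_meas x _).nullMeasurableSet)
      (fun a b hab ω hω k hk => hω k (hk.trans_le hab)) ⟨0, measure_ne_top _ _⟩
    have h6 : (⋂ N : ℕ, {ω : ℕ → Fin d × Bool | ∀ k, k < N → x + ∑ j ∈ range k, vec (ω j) ≠ 0}) =
        {ω | ∀ k, True → x + ∑ j ∈ range k, vec (ω j) ≠ 0} := by
      ext ω
      simp only [Set.mem_iInter, Set.mem_ofPred_eq]
      exact ⟨fun h k _ => h (k + 1) k (Nat.lt_succ_self k), fun h _ k _ => h k trivial⟩
    rw [h6] at h5
    have h7 : 1 - U (fun _ => True) x ≤ h x :=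
      le_of_tendsto' (((ENNReal.tendsto_toReal (measure_ne_top _ _)).comp h5).const_sub 1)
        fun N => h2 N x
    linarith
  have h4 := U_step (d := d) (1 ≤ ·) 0 (by simp)
  simp only [le_add_iff_nonneg_left, zero_le] at h4
  rw [← avg_sub, ← funext h3, ← h4]
  simp [alpha, U]

lemma weights {E : Type} [Fintype E] [DecidableEq E] (σ : Equiv.Perm E) (hσ : σ.IsCycleOn (univ : Finset E))
    (a : E → ℝ) (ha : ∑ s, a s = 0) (s0 : E) :
    ∃ w : E → ℝ, w s0 = 0 ∧ (∀ s, w (σ s) = w s + a s) ∧ ∀ s, |w s| ≤ ∑ s, |a s| := by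
  choose idx hlt hidx using fun s => hσ.exists_pow_eq (mem_univ s0) (mem_univ s)
  have hmod := fun m n => hσ.pow_apply_eq_pow_apply (mem_univ s0) (m := m) (n := n)
  set n := (univ : Finset E).card
  have hsum : ∀ g : E → ℝ, ∑ j ∈ range n, g ((σ ^ j) s0) = ∑ s, g s := fun g =>
    sum_nbij (fun j => (σ ^ j) s0) (fun _ _ => mem_univ _)
      (fun i hi j hj h => Nat.ModEq.eq_of_lt_of_lt ((hmod i j).1 h) (by simpa using hi)
        (by simpa using hj))
      (fun s _ => ⟨idx s, by simpa using hlt s, hidx s⟩) fun _ _ => rfl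
  set S : ℕ → ℝ := fun N => ∑ j ∈ range N, a ((σ ^ j) s0) with hS
  have hper : Function.Periodic S n := fun N => by
    simp only [hS]
    rw [add_comm, sum_range_add, hsum, ha, zero_add]
    exact sum_congr rfl fun j _ => by rw [(hmod (n + j) j).2 (by simp [Nat.ModEq])]
  have hS' : ∀ i j, (σ ^ i) s0 = (σ ^ j) s0 → S i = S j := fun i j h => by
    rw [← hper.map_mod_nat i, ← hper.map_mod_nat j, (hmod i j).1 h]
  refine ⟨fun s => S (idx s), ?_, fun s => ?_, fun s => ?_⟩
  · exact (hS' _ 0 (hidx s0)).trans (by simp [hS])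
  · show S _ = _
    rw [hS' _ (idx s + 1) (by rw [hidx, pow_succ', Equiv.Perm.mul_apply, hidx])]
    simp only [hS]
    rw [sum_range_succ, hidx]
  · rw [← hsum fun s => |a s|]
    exact (abs_sum_le_sum_abs _ _).trans (sum_le_sum_of_subset_of_nonneg
      (range_subset_range.2 (hlt s).le) fun _ _ _ => abs_nonneg _)

/-- local bound -/
noncomputable def W (x : Fin d → ℤ) : ℝ :=
  ∑ i, (|D i h x| + |D i h (x - e i)|) + 2 * d * dl x

lemma W_bd [NeZero d] (x : Fin d → ℤ) : ∑ s : Fin d × Bool, |h (x + vec s) - avg h x| ≤ W x := by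
  have h1 : |h x - avg h x| ≤ dl x := by
    unfold dl
    split_ifs with hx
    · have := avg_bd (h_good (d := d)).bd x
      have := (h_good (d := d)).bd x
      rw [abs_le]; constructor <;> linarith
    · rw [← h_harm x hx]; simp
  rw [sum_vec (fun y => |h y - avg h x|), W]
  have : ∀ i, |h (x + e i) - avg h x| + |h (x - e i) - avg h x| ≤
      |D i h x| + |D i h (x - e i)| + 2 * dl x := fun i => by
    simp only [D, sub_add_cancel]
    linarith [abs_sub_le (h (x + e i)) (h x) (avg h x), abs_sub_le (h (x - e i)) (h x) (avg h x),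
      abs_sub_comm (h (x + e i)) (h x)]
  refine (sum_le_sum fun i _ => this i).trans (le_of_eq ?_)
  rw [sum_add_distrib]
  simp
  ring

lemma W_sum (hd : 3 ≤ d) (v : Fin d) (ε : ℝ) (hε : 0 < ε) : ∃ M : ℝ, ∀ C F : Finset (Fin d → ℤ),
    (∀ x ∈ F, Function.update x v 0 ∈ C) → ∑ x ∈ F, W x ≤ M + ε * C.card := by
  have hd' : (0 : ℝ) < d := by exact_mod_cast (show 0 < d by omega)
  choose K hK using fun i => col_small hd v i (ε / (2 * d)) (by positivity)
  set K0 : ℕ := univ.sup K + 1 with hK0
  have hKi : ∀ i, K i < K0 := fun i => Nat.lt_succ_of_le (le_sup (mem_univ i))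
  set B := Fintype.piFinset fun _ : Fin d => Icc (-(K0 : ℤ)) K0
  have gen : ∀ (b : ℝ) (c : Fin d → ℤ) (F : Finset (Fin d → ℤ)), (∀ x ∈ F, ∀ l ≠ v, x l = c l) →
      (∀ i (y : Fin d → ℤ), (∀ l, |y l| ≤ 1) → ∀ F : Finset (Fin d → ℤ),
        (∀ x ∈ F, ∀ l ≠ v, x l = (c - y) l) → ∑ x ∈ F, |D i h x| ≤ b) →
      ∑ x ∈ F, W x ≤ 2 * d * b + 2 * d * ∑ x ∈ F, dl x := by
    intro b c F hF hb
    simp only [W]
    rw [sum_add_distrib, ← mul_sum, sum_comm]
    refine add_le_add ((sum_le_card_nsmul _ _ (b + b) fun i _ => ?_).trans (by simp; linarith)) le_rfl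
    rw [sum_add_distrib]
    refine add_le_add (hb i 0 (by simp) F (by simpa using hF)) ?_
    rw [← sum_image (s := F) (g := fun x => x - e i) (f := fun x => |D i h x|)
      fun x _ y _ h => sub_left_injective h]
    refine hb i (e i) (fun l => ?_) _ fun x hx l hl => ?_
    · by_cases hl : l = i
      · subst hl; simp
      · simp [e_ne hl]
    · obtain ⟨y, hy, rfl⟩ := mem_image.1 hx
      simp [hF y hy l hl]
  refine ⟨B.card * (2 * d * (2 * d) + 2 * d), fun C F hF => ?_⟩
  rw [← sum_fiberwise_of_maps_to hF]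
  have hc : ∀ c ∈ C, ∑ x ∈ F with Function.update x v 0 = c, W x ≤
      (if c ∈ B then (2 * d * (2 * d) + 2 * d : ℝ) else 0) + ε := by
    intro c _
    have hF' : ∀ x ∈ F.filter (Function.update · v 0 = c), ∀ l ≠ v, x l = c l := fun x hx l hl => by
      rw [← (mem_filter.1 hx).2]; simp [hl]
    split_ifs with hB
    · have h1 := gen (2 * d) c _ hF' fun i y _ F hF => col_bd hd v i _ F hF
      have h2 : ∑ x ∈ F.filter (Function.update · v 0 = c), dl x ≤ 1 := by
        simp only [dl]
        rw [sum_ite_eq']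
        split_ifs <;> norm_num
      nlinarith
    · rcases (F.filter (Function.update · v 0 = c)).eq_empty_or_nonempty with he | ⟨x0, hx0⟩
      · rw [he]; simpa using hε.le
      have hcv : c v = 0 := by rw [← (mem_filter.1 hx0).2]; simp
      obtain ⟨l, hl⟩ : ∃ l, (K0 : ℤ) < |c l| := by
        by_contra hn
        push Not at hn
        exact hB (Fintype.mem_piFinset.2 fun l => mem_Icc.2 (abs_le.1 (hn l)))
      have hlv : l ≠ v := by rintro rfl; rw [hcv] at hl; simp at hl; omega
      have h1 := gen (ε / (2 * d)) c _ hF' fun i y hy F hF => hK i (c - y) l hlv (by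
        have := hy l
        have := hKi i
        have := abs_sub_abs_le_abs_sub (c l) (y l)
        simp only [Pi.sub_apply]
        omega) F hF
      have h2 : ∑ x ∈ F with Function.update x v 0 = c, dl x = 0 :=
        sum_eq_zero fun x hx => if_neg fun h0 => by
          have := hF' x hx l hlv
          rw [h0] at this
          rw [← this] at hl
          simp at hl; omega
      rw [h2, mul_div_cancel₀ _ (by positivity)] at h1
      linarith
  refine (sum_le_sum hc).trans ?_
  rw [sum_add_distrib, sum_ite_mem, sum_const, sum_const, nsmul_eq_mul, nsmul_eq_mul, mul_comm _ ε]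
  refine add_le_add (mul_le_mul_of_nonneg_right ?_ (by positivity)) le_rfl
  exact_mod_cast card_le_card inter_subset_right

section walk

variable (m : (Fin d → ℤ) → Equiv.Perm (Fin d × Bool)) (ρ : (Fin d → ℤ) → Fin d × Bool)

/-- rotors at time `k` -/
def cfg (k : ℕ) : (Fin d → ℤ) → Fin d × Bool := ((step m)^[k] (0, ρ)).2

lemma pos_succ (k : ℕ) : pos m ρ (k + 1) = pos m ρ k + vec (cfg m ρ k (pos m ρ k)) := by
  simp only [pos, cfg, Function.iterate_succ_apply']; rfl

lemma cfg_succ (k : ℕ) : cfg m ρ (k + 1) =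
    Function.update (cfg m ρ k) (pos m ρ k) (m (pos m ρ k) (cfg m ρ k (pos m ρ k))) := by
  simp only [pos, cfg, Function.iterate_succ_apply']; rfl

lemma cfg_count (k : ℕ) (x : Fin d → ℤ) :
    cfg m ρ k x = (m x ^ Nat.count (fun j => pos m ρ j = x) k) (ρ x) := by
  induction k with
  | zero => rfl
  | succ k ih =>
    rw [cfg_succ, Nat.count_succ]
    by_cases h : pos m ρ k = x
    · rw [h, Function.update_self, if_pos rfl, pow_succ', ih]; rfl
    · rw [Function.update_of_ne (Ne.symm h), if_neg h, ih, add_zero]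

lemma cfg_fresh (k : ℕ) (x : Fin d → ℤ) (h : ∀ j < k, pos m ρ j ≠ x) : cfg m ρ k x = ρ x := by
  rw [cfg_count, Nat.count_of_forall_not h]; rfl

lemma columns (v : Fin d) (C : Finset (Fin d → ℤ))
    (hC : ∀ x, Function.update x v 0 ∉ C → ρ x = (v, true)) :
    ∃ c, ∀ k, Function.update (pos m ρ k) v 0 ∈ insert c C := by
  by_cases hall : ∃ k, Function.update (pos m ρ k) v 0 ∉ C
  swap
  · push Not at hall
    exact ⟨0, fun k => mem_insert_of_mem (hall k)⟩
  set k0 := Nat.find hall
  have h0 : Function.update (pos m ρ k0) v 0 ∉ C := Nat.find_spec hall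
  have h1 : ∀ j < k0, Function.update (pos m ρ j) v 0 ∈ C := fun j hj =>
    not_not.1 (Nat.find_min hall hj)
  have hu : ∀ s : ℕ, Function.update (pos m ρ k0 + s • e v) v 0 =
      Function.update (pos m ρ k0) v 0 := fun s => by
    funext l; by_cases hl : l = v
    · subst hl; simp
    · simp [hl, e_ne hl]
  have key : ∀ s : ℕ, ∀ t ≤ s, pos m ρ (k0 + t) = pos m ρ k0 + t • e v := by
    intro s
    induction s with
    | zero => intro t ht; obtain rfl : t = 0 := by omega
              simp
    | succ s ih =>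
      intro t ht
      rcases Nat.lt_succ_iff_lt_or_eq.1 (Nat.lt_succ_of_le ht) with h | rfl
      · exact ih t (by omega)
      rw [← add_assoc, pos_succ, cfg_fresh, ih s le_rfl, hC _ (by rw [hu]; exact h0), succ_nsmul,
        add_assoc]
      · rfl
      · intro j hj hc
        rcases lt_or_ge j k0 with h | h
        · have := h1 j h
          rw [hc, ih s le_rfl, hu] at this
          exact h0 this
        · obtain ⟨t, rfl⟩ := Nat.exists_eq_add_of_le h
          rw [ih t (by omega), ih s le_rfl] at hc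
          have := congrFun hc v
          simp at this
          omega
  refine ⟨Function.update (pos m ρ k0) v 0, fun k => ?_⟩
  rcases lt_or_ge k k0 with h | h
  · exact mem_insert_of_mem (h1 k h)
  · obtain ⟨t, rfl⟩ := Nat.exists_eq_add_of_le h
    rw [key t t le_rfl, hu]
    exact mem_insert_self _ _

lemma finite_visits (hm : ∀ x, (m x).IsCycleOn (univ : Finset (Fin d × Bool))) (hE : Escapes m ρ)
    (x : Fin d → ℤ) : {k | pos m ρ k = x}.Finite := by
  have hs : ∀ (s : Fin d × Bool) (x : Fin d → ℤ), {k | pos m ρ k = x}.Infinite →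
      {k | pos m ρ k = x + vec s}.Infinite := by
    intro s x hx
    obtain ⟨t, -, ht⟩ := (hm x).exists_pow_eq (mem_univ (ρ x)) (mem_univ s)
    have hn : 0 < (univ : Finset (Fin d × Bool)).card := card_pos.2 ⟨s, mem_univ _⟩
    refine Set.infinite_of_injective_forall_mem (f := fun q : ℕ =>
      Nat.nth (fun j => pos m ρ j = x) (t + (univ : Finset (Fin d × Bool)).card * q) + 1)
      (fun a b hab => ?_) fun q => ?_
    · have := Nat.nth_injective hx (add_right_cancel hab)
      exact Nat.eq_of_mul_eq_mul_left hn (add_left_cancel this)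
    · have h1 := Nat.nth_mem_of_infinite hx (t + (univ : Finset (Fin d × Bool)).card * q)
      rw [Set.mem_ofPred_eq, pos_succ, h1, cfg_count, Nat.count_nth_of_infinite hx, ← ht,
        ((hm x).pow_apply_eq_pow_apply (mem_univ _) (n := t)
          (m := t + (univ : Finset (Fin d × Bool)).card * q)).2 (by simp [Nat.ModEq])]
  let S : AddSubmonoid (Fin d → ℤ) :=
    { carrier := {y | ∀ x, {k | pos m ρ k = x}.Infinite → {k | pos m ρ k = x + y}.Infinite}
      add_mem' := fun ha hb x hx => by rw [← add_assoc]; exact hb _ (ha x hx)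
      zero_mem' := fun x hx => by rwa [add_zero] }
  have hx : -x ∈ S := by
    rw [← univ_sum_single (-x)]
    refine S.sum_mem fun i _ => ?_
    obtain ⟨n, h | h⟩ := Int.eq_nat_or_neg ((-x) i)
    · have := S.nsmul_mem (hs (i, true)) n
      rwa [show n • vec (i, true) = Pi.single i ((-x) i) by
        rw [h]; simp [vec, ← Pi.single_smul']] at this
    · have := S.nsmul_mem (hs (i, false)) n
      rwa [show n • vec (i, false) = Pi.single i ((-x) i) by
        rw [h]; simp [vec, ← Pi.single_smul', Pi.single_neg]] at this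
  by_contra hinf
  have := hx x hinf
  rw [add_neg_cancel] at this
  obtain ⟨k, hk, hk1⟩ := this.exists_gt 0
  exact hE k hk1 hk

lemma one_particle (hd : 3 ≤ d) (hm : ∀ x, (m x).IsCycleOn (univ : Finset (Fin d × Bool)))
    (v : Fin d) (w : (Fin d → ℤ) → Fin d × Bool → ℝ) (hw0 : ∀ x, w x (v, true) = 0)
    (hw1 : ∀ x s, w x (m x s) = w x s + (h (x + vec s) - avg h x)) (hw2 : ∀ x s, |w x s| ≤ W x)
    (C : Finset (Fin d → ℤ)) (hC : ∀ x, Function.update x v 0 ∉ C → ρ x = (v, true)) :
    (∃ c, ∀ x, Function.update x v 0 ∉ insert c C → next m ρ x = (v, true)) ∧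
    (Escapes m ρ → ∑' x, w x (next m ρ x) = ∑' x, w x (ρ x) - avg (h (d := d)) 0) ∧
    (¬ Escapes m ρ → ∑' x, w x (next m ρ x) = ∑' x, w x (ρ x) + (1 - avg (h (d := d)) 0)) := by
  obtain ⟨c, hc⟩ := columns m ρ v C hC
  have hout : ∀ x, Function.update x v 0 ∉ insert c C → ∀ k, pos m ρ k ≠ x :=
    fun x hx k e => hx (e ▸ hc k)
  set g : (Fin d → ℤ) → ℝ := fun x => if Function.update x v 0 ∈ insert c C then W x else 0
  have hg : Summable g := by
    obtain ⟨M, hM⟩ := W_sum hd v 1 one_pos
    refine summable_of_sum_le (c := M + 1 * (insert c C).card) (fun x => ?_) fun F => ?_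
    · simp only [g]
      split_ifs
      · exact (abs_nonneg _).trans (hw2 x (v, true))
      · exact le_rfl
    · rw [← sum_filter]
      exact hM _ _ fun x hx => (mem_filter.1 hx).2
  have hb : ∀ k x, ‖w x (cfg m ρ k x)‖ ≤ g x := fun k x => by
    simp only [g]
    split_ifs with hx
    · exact hw2 _ _
    · rw [cfg_fresh _ _ _ _ fun j _ => hout x hx j, hC x fun h => hx (mem_insert_of_mem h), hw0,
        norm_zero]
  have hs : ∀ k, Summable fun x => w x (cfg m ρ k x) := fun k => .of_norm_bounded hg (hb k)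
  have hstep : ∀ k, ∑' x, w x (cfg m ρ (k + 1) x) =
      ∑' x, w x (cfg m ρ k x) + (h (pos m ρ (k + 1)) - avg h (pos m ρ k)) := by
    intro k
    rw [← sub_eq_iff_eq_add', ← (hs _).tsum_sub (hs _), tsum_eq_single (pos m ρ k)]
    · rw [cfg_succ, Function.update_self, hw1, pos_succ]; ring
    · intro x hx
      rw [cfg_succ, Function.update_of_ne hx, sub_self]
  have hen : ∀ K, (∀ j, 1 ≤ j → j ≤ K → pos m ρ j ≠ 0) → ∑' x, w x (cfg m ρ (K + 1) x) =
      ∑' x, w x (ρ x) + (h (pos m ρ (K + 1)) - avg (h (d := d)) 0) := by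
    intro K
    induction K with
    | zero => intro _; exact hstep 0
    | succ K ih =>
      intro hK
      rw [hstep, ih fun j h1 h2 => hK j h1 (by omega), ← h_harm _ (hK (K + 1) (by omega) le_rfl)]
      ring
  refine ⟨⟨c, fun x hx => ?_⟩, fun hE => ?_, fun hE => ?_⟩
  · have : {k | pos m ρ k = x ∧ ∀ j, 1 ≤ j → j ≤ k → pos m ρ j ≠ 0} = ∅ :=
      Set.eq_empty_of_forall_notMem fun k hk => hout x hx k hk.1
    rw [next, this, Set.ncard_empty]
    exact hC x fun h => hx (mem_insert_of_mem h)
  · have hfin := finite_visits m ρ hm hE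
    have h1 : Tendsto (fun k => ∑' x, w x (cfg m ρ k x)) atTop (𝓝 (∑' x, w x (next m ρ x))) := by
      refine tendsto_tsum_of_dominated_convergence hg (fun x => ?_) (.of_forall hb)
      obtain ⟨N, hN⟩ := (hfin x).bddAbove
      refine tendsto_const_nhds.congr' ?_
      filter_upwards [eventually_gt_atTop N] with k hk
      rw [cfg_count, next, Nat.count_eq_card_filter_range, ← Set.ncard_coe_finset]
      congr 4
      ext j
      simp only [Set.mem_ofPred_eq, coe_filter, mem_range]
      exact ⟨fun h => ⟨(hN h.1).trans_lt hk, h.1⟩, fun h => ⟨h.2, fun i hi _ => hE i hi⟩⟩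
    have h2 : Tendsto (fun k => h (pos m ρ k)) atTop (𝓝 0) := by
      have h3 : Tendsto (pos m ρ) atTop cofinite := by
        rw [← Nat.cofinite_eq_atTop]
        exact Tendsto.cofinite_of_finite_preimage_singleton fun x => (hfin x).to_subtype
      refine Tendsto.comp (g := h) (tendsto_order.2 ⟨fun a ha => .of_forall fun x =>
        ha.trans_le (h_good.bd x).1, fun a ha => ?_⟩) h3
      obtain ⟨K, hK⟩ := h_small hd (a / 2) (half_pos ha)
      refine (Fintype.piFinset fun _ : Fin d => Icc (-(K : ℤ)) K).finite_toSet.subset fun x hx => ?_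
      refine Fintype.mem_piFinset.2 fun l => mem_Icc.2 (abs_le.1 ?_)
      by_contra hn
      exact hx ((hK x l (not_le.1 hn).le).trans_lt (half_lt_self ha))
    have h3 := (((h2.comp (tendsto_add_atTop_nat 1)).sub_const (avg (h (d := d)) 0)).const_add
      (∑' x, w x (ρ x))).congr fun K => (hen K fun j h1 _ => hE j h1).symm
    rw [tendsto_nhds_unique (h1.comp (tendsto_add_atTop_nat 1)) h3]
    ring
  · have hex : ∃ K, pos m ρ (K + 1) = 0 := by
      simp only [Escapes, not_forall, not_not] at hE
      obtain ⟨k, hk, h0⟩ := hE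
      exact ⟨k - 1, by rwa [Nat.sub_add_cancel hk]⟩
    have h1 : ∀ j, 1 ≤ j → j ≤ Nat.find hex → pos m ρ j ≠ 0 := fun j h1 h2 => by
      have := Nat.find_min hex (m := j - 1) (by omega)
      rwa [Nat.sub_add_cancel h1] at this
    have h2 : next m ρ = cfg m ρ (Nat.find hex + 1) := by
      funext x
      rw [cfg_count, next, Nat.count_eq_card_filter_range, ← Set.ncard_coe_finset]
      congr 3
      ext j
      simp only [Set.mem_ofPred_eq, coe_filter, mem_range]
      refine ⟨fun h => ⟨?_, h.1⟩, fun h => ⟨h.2, fun i hi hij => h1 i hi (by omega)⟩⟩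
      by_contra hn
      exact h.2 _ (by omega) (not_lt.1 hn) (Nat.find_spec hex)
    rw [h2, hen _ h1, Nat.find_spec hex, h_zero]

end walk

theorem result (d : ℕ) (hd : 3 ≤ d) (m : (Fin d → ℤ) → Equiv.Perm (Fin d × Bool))
    (hm : ∀ x, (m x).IsCycle ∧ (m x).support = univ) (v : Fin d) :
    Tendsto (fun n : ℕ => (I m (fun _ => (v, true)) n : ℝ) / n) atTop (𝓝 (alpha d)) := by
  have : NeZero d := ⟨by omega⟩
  have hd' : (0 : ℝ) < d := by exact_mod_cast (show 0 < d by omega)
  have hm' : ∀ x, (m x).IsCycleOn (univ : Finset (Fin d × Bool)) := fun x => by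
    have := (hm x).1.isCycleOn
    rwa [show {s | m x s ≠ s} = ((univ : Finset (Fin d × Bool)) : Set _) by
      rw [← (hm x).2]; ext; simp] at this
  choose w hw0 hw1 hw2 using fun x => weights (m x) (hm' x) (fun s => h (x + vec s) - avg h x)
    (by rw [sum_sub_distrib, sum_vec, avg]; simp; field_simp; ring) (v, true)
  have hw3 : ∀ x s, |w x s| ≤ W x := fun x s => (hw2 x s).trans (W_bd x)
  have key : ∀ n : ℕ, (∃ C : Finset (Fin d → ℤ), C.card ≤ n ∧ ∀ x, Function.update x v 0 ∉ C →
      (next m)^[n] (fun _ => (v, true)) x = (v, true)) ∧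
      ∑' x, w x ((next m)^[n] (fun _ => (v, true)) x) =
        n * alpha d - I m (fun _ => (v, true)) n := by
    intro n
    induction n with
    | zero => exact ⟨⟨∅, le_rfl, fun _ _ => rfl⟩, by simp [hw0, I]⟩
    | succ n ih =>
      obtain ⟨⟨C, hC, hC'⟩, hΦ⟩ := ih
      obtain ⟨⟨c, hc⟩, h1, h2⟩ := one_particle m _ hd hm' v w hw0 hw1 hw3 C hC'
      rw [Function.iterate_succ_apply']
      refine ⟨⟨insert c C, (card_insert_le _ _).trans (by omega), hc⟩, ?_⟩
      simp only [I, range_add_one, filter_insert] at hΦ ⊢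
      split_ifs with hE
      · rw [h1 hE, hΦ, card_insert_of_notMem (by simp), alpha_eq]
        push_cast; ring
      · rw [h2 hE, hΦ, alpha_eq]
        push_cast; ring
  rw [Metric.tendsto_nhds]
  intro ε hε
  obtain ⟨M, hM⟩ := W_sum hd v (ε / 2) (half_pos hε)
  filter_upwards [(tendsto_const_div_atTop_nhds_zero_nat M).eventually (gt_mem_nhds (half_pos hε)),
    eventually_gt_atTop 0] with n h1 h2
  obtain ⟨⟨C, hC, hC'⟩, hΦ⟩ := key n
  have hn : (0 : ℝ) < n := by exact_mod_cast h2
  have hb : ∀ F : Finset (Fin d → ℤ),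
      ∑ x ∈ F, ‖w x ((next m)^[n] (fun _ => (v, true)) x)‖ ≤ M + ε / 2 * C.card := fun F => by
    refine le_trans ?_ (hM C (F.filter (Function.update · v 0 ∈ C)) fun x hx => (mem_filter.1 hx).2)
    rw [sum_filter]
    refine sum_le_sum fun x _ => ?_
    split_ifs with hx
    · exact hw3 _ _
    · rw [hC' x hx, hw0, norm_zero]
  have hs := summable_of_sum_le (fun _ => norm_nonneg _) hb
  have h3 := (norm_tsum_le_tsum_norm hs).trans (hs.tsum_le_of_sum_le hb)
  have h4 : (C.card : ℝ) ≤ n := by exact_mod_cast hC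
  rw [hΦ, Real.norm_eq_abs, abs_sub_comm] at h3
  rw [Real.dist_eq, div_sub' hn.ne', abs_div, abs_of_pos hn, div_lt_iff₀ hn]
  rw [div_lt_iff₀ hn] at h1
  nlinarith

end Pool.Agent.Results.MP_b041da_pr.Escape
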